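import Mathlib
import Pool.Agent.H9.Wave

namespace Pool.Agent.Results.MP_5e7104_an.Cardinal

open MeasureTheory Set Filter Topology
open scoped InnerProductSpace

/-- The function `2 ^ (j / 2) φ (2 ^ j x - k)`. -/
noncomputable def dil (φ : ℝ → ℂ) (j k : ℤ) (x : ℝ) : ℂ :=
  (Real.sqrt ((2 : ℝ) ^ j) : ℂ) * φ ((2 : ℝ) ^ j * x - k)

/-- The closed span `V_j` in `L^2(ℝ)` of the functions `dil φ j k`, `k ∈ ℤ`. -/
noncomputable def V (φ : ℝ → ℂ) (j : ℤ) : Submodule ℂ (Lp ℂ 2 (volume : Measure ℝ)) :=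
  (Submodule.span ℂ
    {g : Lp ℂ 2 (volume : Measure ℝ) | ∃ k : ℤ, (g : ℝ → ℂ) =ᵐ[volume] dil φ j k}).topologicalClosure

/-- The scaling function of an orthonormal multiresolution analysis. -/
def IsOrthScaling (φ : ℝ → ℂ) : Prop :=
  MemLp φ 2 (volume : Measure ℝ) ∧
  (∀ k l : ℤ, ∫ x : ℝ, φ (x - k) * (starRingEnd ℂ) (φ (x - l)) = if k = l then 1 else 0) ∧
  (∃ d : ℤ → ℂ, ∀ t : ℝ, HasSum (fun k : ℤ => d k * φ (t - k)) (φ (t / 2))) ∧
  (∀ j : ℤ, V φ j ≤ V φ (j + 1)) ∧
  Dense (⋃ j : ℤ, (V φ j : Set (Lp ℂ 2 (volume : Measure ℝ)))) ∧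
  ⨅ j : ℤ, V φ j = ⊥

open Pool.Agent.H9.Wave

noncomputable def toL (h : ℝ → ℝ) (hc : Continuous h) (hs : HasCompactSupport h) :
    Lp ℂ 2 (volume : Measure ℝ) :=
  MemLp.toLp (fun x => (h x : ℂ))
    ((Complex.continuous_ofReal.comp hc).memLp_of_hasCompactSupport
      (hs.comp_left (g := fun r : ℝ => (r : ℂ)) (by simp)))

lemma toL_ae (h : ℝ → ℝ) (hc : Continuous h) (hs : HasCompactSupport h) :
    (toL h hc hs : ℝ → ℂ) =ᵐ[volume] fun x => (h x : ℂ) := MemLp.coeFn_toLp _

lemma inner_toL (h : ℝ → ℝ) (hc : Continuous h) (hs : HasCompactSupport h)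
    (g : Lp ℂ 2 (volume : Measure ℝ)) : ⟪toL h hc hs, g⟫_ℂ = ∫ x, h x • g x := by
  rw [L2.inner_def]
  apply integral_congr_ae
  filter_upwards [toL_ae h hc hs] with x hx
  rw [hx]
  simp [mul_comm]

lemma inner_toL2 (h : ℝ → ℝ) (hc : Continuous h) (hs : HasCompactSupport h)
    (h' : ℝ → ℝ) (hc' : Continuous h') (hs' : HasCompactSupport h') :
    ⟪toL h hc hs, toL h' hc' hs'⟫_ℂ = ((∫ x, h x * h' x : ℝ) : ℂ) := by
  rw [inner_toL, ← integral_complex_ofReal]
  apply integral_congr_ae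
  filter_upwards [toL_ae h' hc' hs'] with x hx
  rw [hx]
  simp

lemma locInt (g : Lp ℂ 2 (volume : Measure ℝ)) : LocallyIntegrable (g : ℝ → ℂ) volume :=
  (Lp.memLp g).locallyIntegrable (by norm_num)

lemma zero_of_test (g : Lp ℂ 2 (volume : Measure ℝ))
    (H : ∀ h : ℝ → ℝ, Continuous h → HasCompactSupport h → ∫ x, h x • g x = 0) : g = 0 := by
  rw [Lp.eq_zero_iff_ae_eq_zero]
  exact ae_eq_zero_of_integral_contDiff_smul_eq_zero (locInt g)
    fun h h1 h2 => H h h1.continuous h2

lemma radius {h : ℝ → ℝ} (hs : HasCompactSupport h) : ∃ R : ℕ, ∀ x, (R : ℝ) ≤ |x| → h x = 0 := by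
  obtain ⟨r, hr⟩ := hs.isCompact.isBounded.subset_ball 0
  obtain ⟨R, hR⟩ := exists_nat_ge r
  refine ⟨R, fun x hx => image_eq_zero_of_notMem_tsupport fun hm => ?_⟩
  have := hr hm
  rw [mem_ball_zero_iff, Real.norm_eq_abs] at this
  linarith

variable {φ : ℝ → ℝ}

noncomputable def psi (φ : ℝ → ℝ) (j k : ℤ) (x : ℝ) : ℝ :=
  Real.sqrt ((2 : ℝ) ^ j) * φ ((2 : ℝ) ^ j * x - k)

lemma sc_cont (h : Good 1 φ) (c k : ℝ) : Continuous fun x => φ (c * x - k) := by
  have := h.cont
  fun_prop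

lemma sc_supp (h : Good 1 φ) (c k : ℝ) (hc : 0 < c) : HasCompactSupport fun x => φ (c * x - k) := by
  apply HasCompactSupport.intro (isCompact_Icc (a := k / c) (b := (k + 3) / c))
  intro x hx
  rw [mem_Icc, not_and_or, not_le, not_le, lt_div_iff₀ hc, div_lt_iff₀ hc] at hx
  rcases hx with hx | hx
  · exact h.left _ (by linarith)
  · exact h.right _ (by linarith)

lemma psi_cont (h : Good 1 φ) (j k : ℤ) : Continuous (psi φ j k) :=
  continuous_const.mul (sc_cont h _ _)

lemma psi_supp (h : Good 1 φ) (j k : ℤ) : HasCompactSupport (psi φ j k) :=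
  (sc_supp h _ _ (by positivity)).mul_left

noncomputable def ee (h : Good 1 φ) (j k : ℤ) : Lp ℂ 2 (volume : Measure ℝ) :=
  toL (psi φ j k) (psi_cont h j k) (psi_supp h j k)

lemma V_eq (h : Good 1 φ) (j : ℤ) : V (fun x => (φ x : ℂ)) j =
    (Submodule.span ℂ (range (ee h j))).topologicalClosure := by
  unfold V
  congr 2
  ext g
  have e : ∀ k, dil (fun x => (φ x : ℂ)) j k = fun x => (psi φ j k x : ℂ) := fun k => by
    funext x; simp [dil, psi]
  constructor
  · rintro ⟨k, hk⟩
    exact ⟨k, Lp.ext ((toL_ae _ _ _).trans (e k ▸ hk.symm))⟩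
  · rintro ⟨k, rfl⟩
    exact ⟨k, e k ▸ toL_ae _ _ _⟩

lemma ee_mem (h : Good 1 φ) (j k : ℤ) : ee h j k ∈ V (fun x => (φ x : ℂ)) j := by
  rw [V_eq h]
  exact Submodule.le_topologicalClosure _ (Submodule.subset_span ⟨k, rfl⟩)

lemma ee_inner (h : Good 1 φ) (hac : ∀ k : ℤ, ac φ k = if k = 0 then 1 else 0) (j k l : ℤ) :
    ⟪ee h j k, ee h j l⟫_ℂ = if k = l then 1 else 0 := by
  rw [ee, ee, inner_toL2]
  have hp : (0 : ℝ) < 2 ^ j := by positivity
  have e : ∀ x, psi φ j k x * psi φ j l x =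
      2 ^ j * (fun y => φ (y - k) * φ (y - l)) (2 ^ j * x) := by
    intro x
    have := Real.mul_self_sqrt hp.le
    simp only [psi]
    linear_combination (φ (2 ^ j * x - k) * φ (2 ^ j * x - l)) * this
  simp_rw [e]
  rw [integral_const_mul, Measure.integral_comp_mul_left (fun y => φ (y - k) * φ (y - l)),
    ac_shift, abs_of_pos (inv_pos.2 hp), smul_eq_mul, ← mul_assoc, mul_inv_cancel₀ hp.ne', one_mul,
    ← Int.cast_sub, hac]
  by_cases hkl : k = l
  · simp [hkl]
  · rw [if_neg hkl, if_neg (by omega)]; simp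

lemma nested {a b : ℝ} (h : Good 1 φ) (hf : ∀ x, T a b φ x = φ x) (j : ℤ) :
    V (fun x => (φ x : ℂ)) j ≤ V (fun x => (φ x : ℂ)) (j + 1) := by
  rw [V_eq h j]
  apply Submodule.topologicalClosure_minimal
  · rw [Submodule.span_le]
    rintro _ ⟨k, rfl⟩
    have e : ee h j k = ((a / Real.sqrt 2 : ℝ) : ℂ) • ee h (j + 1) (2 * k) +
        (((1 - b) / Real.sqrt 2 : ℝ) : ℂ) • ee h (j + 1) (2 * k + 1) +
        (((1 - a) / Real.sqrt 2 : ℝ) : ℂ) • ee h (j + 1) (2 * k + 2) +
        ((b / Real.sqrt 2 : ℝ) : ℂ) • ee h (j + 1) (2 * k + 3) := by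
      apply ext_inner_right ℂ
      intro g
      have hi : ∀ l, Integrable fun x => psi φ (j + 1) l x • (g : ℝ → ℂ) x := fun l =>
        (locInt g).integrable_smul_left_of_hasCompactSupport (psi_cont h _ _) (psi_supp h _ _)
      simp only [inner_add_left, inner_smul_left, Complex.conj_ofReal, ee, inner_toL,
        ← integral_const_mul]
      rw [← integral_add ((hi _).const_mul _) ((hi _).const_mul _),
        ← integral_add (((hi _).const_mul _).fun_add ((hi _).const_mul _)) ((hi _).const_mul _),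
        ← integral_add ((((hi _).const_mul _).fun_add ((hi _).const_mul _)).fun_add
          ((hi _).const_mul _)) ((hi _).const_mul _)]
      congr 1
      funext x
      have hs : Real.sqrt ((2 : ℝ) ^ (j + 1)) = Real.sqrt (2 ^ j) * Real.sqrt 2 := by
        rw [zpow_add_one₀ (by norm_num), Real.sqrt_mul (by positivity)]
      have h2 : Real.sqrt 2 ≠ 0 := by positivity
      have key : psi φ j k x = a / Real.sqrt 2 * psi φ (j + 1) (2 * k) x +
          (1 - b) / Real.sqrt 2 * psi φ (j + 1) (2 * k + 1) x +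
          (1 - a) / Real.sqrt 2 * psi φ (j + 1) (2 * k + 2) x +
          b / Real.sqrt 2 * psi φ (j + 1) (2 * k + 3) x := by
        simp only [psi, hs]
        rw [← hf, T, zpow_add_one₀ (by norm_num)]
        push_cast
        rw [show 2 ^ j * 2 * x - 2 * (k : ℝ) = 2 * (2 ^ j * x - k) by ring,
          show 2 ^ j * 2 * x - (2 * (k : ℝ) + 1) = 2 * (2 ^ j * x - k) - 1 by ring,
          show 2 ^ j * 2 * x - (2 * (k : ℝ) + 2) = 2 * (2 ^ j * x - k) - 2 by ring,
          show 2 ^ j * 2 * x - (2 * (k : ℝ) + 3) = 2 * (2 ^ j * x - k) - 3 by ring]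
        field_simp
      rw [key]
      simp only [Complex.real_smul]
      push_cast
      ring
    rw [SetLike.mem_coe, e]
    exact Submodule.add_mem _ (Submodule.add_mem _ (Submodule.add_mem _
      (Submodule.smul_mem _ _ (ee_mem h _ _)) (Submodule.smul_mem _ _ (ee_mem h _ _)))
      (Submodule.smul_mem _ _ (ee_mem h _ _))) (Submodule.smul_mem _ _ (ee_mem h _ _))
  · exact Submodule.isClosed_topologicalClosure _

lemma three_terms (h : Good 1 φ) (c : ℤ → ℝ) (A : Finset ℤ) (hA : ∀ k ∉ A, c k = 0) (y : ℝ) :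
    ∑ k ∈ A, c k * φ (y - k) = c ⌊y⌋ * φ (Int.fract y) + c (⌊y⌋ - 1) * φ (Int.fract y + 1) +
      c (⌊y⌋ - 2) * φ (Int.fract y + 2) := by
  have h1 : ∑' k, c k * φ (y - k) = ∑ k ∈ A, c k * φ (y - k) :=
    tsum_eq_sum fun k hk => by rw [hA k hk, zero_mul]
  have h2 : ∑' k, c k * φ (y - k) = ∑ k ∈ ({⌊y⌋, ⌊y⌋ - 1, ⌊y⌋ - 2} : Finset ℤ), c k * φ (y - k) := by
    apply tsum_eq_sum
    intro k hk
    simp only [Finset.mem_insert, Finset.mem_singleton, not_or] at hk
    have f1 := Int.floor_le y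
    have f2 := Int.lt_floor_add_one y
    rcases le_total k ⌊y⌋ with hk' | hk'
    · have : (k : ℝ) + 3 ≤ ⌊y⌋ := by exact_mod_cast (by omega : k + 3 ≤ ⌊y⌋)
      rw [h.right _ (by linarith), mul_zero]
    · have : (⌊y⌋ : ℝ) + 1 ≤ k := by exact_mod_cast (by omega : ⌊y⌋ + 1 ≤ k)
      rw [h.left _ (by linarith), mul_zero]
  rw [← h1, h2, Finset.sum_insert (by simp; omega), Finset.sum_pair (by omega), Int.fract]
  push_cast
  rw [show y - (⌊y⌋ - 1) = y - ⌊y⌋ + 1 by ring, show y - (⌊y⌋ - 2) = y - ⌊y⌋ + 2 by ring]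
  ring

lemma perp_zero (h : Good 1 φ) (g : Lp ℂ 2 (volume : Measure ℝ))
    (hg : ∀ j k, ⟪ee h j k, g⟫_ℂ = 0) : g = 0 := by
  apply zero_of_test
  intro w wc ws
  obtain ⟨R, hR⟩ := radius ws
  obtain ⟨M, hM⟩ := h.bdd
  obtain ⟨W, hW⟩ := wc.bounded_above_of_compact_support ws
  have hM0 : 0 ≤ M := (abs_nonneg _).trans (hM 0)
  have hW0 : 0 ≤ W := (norm_nonneg _).trans (hW 0)
  let H : ℕ → ℝ → ℝ := fun n x => ∑ k ∈ Finset.Icc (-(R * 2 ^ n) : ℤ) (R * 2 ^ n),
    w (k / 2 ^ n) * φ (2 ^ n * x - k)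
  let p : ℕ → ℝ → ℤ → ℝ := fun n x i => ((⌊2 ^ n * x⌋ - i : ℤ) : ℝ) / 2 ^ n
  have hH : ∀ n x, H n x = w (p n x 0) * φ (Int.fract (2 ^ n * x)) +
      w (p n x 1) * φ (Int.fract (2 ^ n * x) + 1) + w (p n x 2) * φ (Int.fract (2 ^ n * x) + 2) := by
    intro n x
    have := three_terms h (fun k => w (k / 2 ^ n)) (Finset.Icc (-(R * 2 ^ n) : ℤ) (R * 2 ^ n))
      (fun k hk => hR _ (by
        rw [abs_div, abs_of_pos (by positivity : (0 : ℝ) < 2 ^ n), le_div_iff₀ (by positivity)]
        rw [Finset.mem_Icc] at hk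
        have : (R * 2 ^ n : ℤ) ≤ |k| := by
          rcases abs_cases k with h | h <;> omega
        exact_mod_cast this)) (2 ^ n * x)
    simpa [p] using this
  have hp : ∀ n x (i : ℤ), 0 ≤ i → i ≤ 2 → |p n x i - x| ≤ 3 * (1 / 2) ^ n := by
    intro n x i h0 h2
    have f1 := Int.floor_le (2 ^ n * x)
    have f2 := Int.lt_floor_add_one (2 ^ n * x)
    have i0 : (0 : ℝ) ≤ i := by exact_mod_cast h0
    have i2 : (i : ℝ) ≤ 2 := by exact_mod_cast h2
    have e : p n x i - x = (⌊2 ^ n * x⌋ - i - 2 ^ n * x) * (1 / 2) ^ n := by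
      simp only [p]; push_cast; rw [one_div_pow]; field_simp
    rw [e, abs_mul, abs_of_pos (by positivity : (0 : ℝ) < (1 / 2) ^ n)]
    apply mul_le_mul_of_nonneg_right _ (by positivity)
    rw [abs_le]; constructor <;> linarith
  have hint : ∀ n, ∫ x, H n x • (g : ℝ → ℂ) x = 0 := by
    intro n
    have hi : ∀ k : ℤ, Integrable fun x => φ (2 ^ n * x - k) • (g : ℝ → ℂ) x := fun k =>
      (locInt g).integrable_smul_left_of_hasCompactSupport (sc_cont h _ _)
        (sc_supp h _ _ (by positivity))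
    simp only [H, Finset.sum_smul, mul_smul]
    rw [integral_finsetSum _ fun k _ => (hi k).fun_smul _]
    apply Finset.sum_eq_zero
    intro k _
    have := hg n k
    rw [ee, inner_toL] at this
    simp only [psi, mul_smul, zpow_natCast] at this
    rw [integral_smul, smul_eq_zero] at this
    rw [integral_smul, this.resolve_left (by positivity), smul_zero]
  have hlim : Tendsto (fun n => ∫ x, H n x • (g : ℝ → ℂ) x) atTop (𝓝 (∫ x, w x • g x)) := by
    apply tendsto_integral_of_dominated_convergence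
      ((Icc (-(R + 3) : ℝ) (R + 3)).indicator fun x => 3 * (W * M) * ‖(g : ℝ → ℂ) x‖)
    · intro n
      have hcH : Continuous (H n) :=
        continuous_finsetSum _ fun k _ => continuous_const.mul (sc_cont h _ _)
      exact hcH.aestronglyMeasurable.smul (Lp.aestronglyMeasurable g)
    · rw [integrable_indicator_iff measurableSet_Icc]
      exact (((locInt g).integrableOn_isCompact isCompact_Icc).norm).const_mul _
    · intro n
      refine Eventually.of_forall fun x => ?_
      rw [norm_smul, hH]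
      by_cases hx : x ∈ Icc (-(R + 3) : ℝ) (R + 3)
      · rw [indicator_of_mem hx]
        apply mul_le_mul_of_nonneg_right _ (norm_nonneg _)
        have b : ∀ u v, ‖w u * φ v‖ ≤ W * M := fun u v => by
          rw [norm_mul]; exact mul_le_mul (hW u) (hM v) (norm_nonneg _) hW0
        have b0 := b (p n x 0) (Int.fract (2 ^ n * x))
        have b1 := b (p n x 1) (Int.fract (2 ^ n * x) + 1)
        have b2 := b (p n x 2) (Int.fract (2 ^ n * x) + 2)
        exact (norm_add₃_le).trans (by linarith)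
      · have z : ∀ i : ℤ, 0 ≤ i → i ≤ 2 → w (p n x i) = 0 := by
          intro i h0 h2
          apply hR
          have h3 := hp n x i h0 h2
          have h4 : (1 / 2 : ℝ) ^ n ≤ 1 := pow_le_one₀ (by norm_num) (by norm_num)
          rw [mem_Icc, not_and_or, not_le, not_le] at hx
          rw [abs_le] at h3
          rcases hx with hx | hx
          · exact le_abs.2 (Or.inr (by linarith))
          · exact le_abs.2 (Or.inl (by linarith))
        rw [indicator_of_notMem hx, z 0 le_rfl (by norm_num), z 1 (by norm_num) (by norm_num),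
          z 2 (by norm_num) le_rfl]
        simp
    · refine Eventually.of_forall fun x => Tendsto.smul_const ?_ _
      have t0 : Tendsto (fun n : ℕ => 3 * (1 / 2 : ℝ) ^ n) atTop (𝓝 0) := by
        simpa using (tendsto_pow_atTop_nhds_zero_of_lt_one (r := (1 / 2 : ℝ)) (by norm_num)
          (by norm_num)).const_mul 3
      have t1 : ∀ i : ℤ, 0 ≤ i → i ≤ 2 → ∀ y : ℕ → ℝ,
          Tendsto (fun n => (w (p n x i) - w x) * φ (y n)) atTop (𝓝 0) := by
        intro i h0 h2 y
        have t2 : Tendsto (fun n => p n x i) atTop (𝓝 x) := by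
          rw [tendsto_iff_norm_sub_tendsto_zero]
          exact squeeze_zero (fun _ => norm_nonneg _) (fun n => hp n x i h0 h2) t0
        have t3 : Tendsto (fun n => w (p n x i) - w x) atTop (𝓝 0) := by
          simpa using ((wc.tendsto x).comp t2).sub_const (w x)
        apply squeeze_zero_norm (a := fun n => ‖w (p n x i) - w x‖ * M)
        · intro n
          rw [norm_mul]
          exact mul_le_mul_of_nonneg_left (hM _) (norm_nonneg _)
        · simpa using t3.norm.mul_const M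
      have t4 := (((t1 0 le_rfl (by norm_num) fun n => Int.fract (2 ^ n * x)).add
        (t1 1 (by norm_num) (by norm_num) fun n => Int.fract (2 ^ n * x) + 1)).add
        (t1 2 (by norm_num) le_rfl fun n => Int.fract (2 ^ n * x) + 2)).add_const (w x)
      simp only [zero_add] at t4
      refine t4.congr fun n => ?_
      rw [hH]
      have := h.part (Int.fract (2 ^ n * x)) (Int.fract_nonneg _) (Int.fract_lt_one _).le
      linear_combination (-w x) * this
  simp only [hint] at hlim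
  exact (tendsto_nhds_unique tendsto_const_nhds hlim).symm

lemma inter_zero (h : Good 1 φ) (hac : ∀ k : ℤ, ac φ k = if k = 0 then 1 else 0)
    (f : Lp ℂ 2 (volume : Measure ℝ)) (hf : ∀ j, f ∈ V (fun x => (φ x : ℂ)) j) : f = 0 := by
  apply zero_of_test
  intro w wc ws
  obtain ⟨R, hR⟩ := radius ws
  obtain ⟨M, hM⟩ := h.bdd
  rw [← inner_toL w wc ws]
  set u := toL w wc ws with hu
  have hw : Integrable w := wc.integrable_of_hasCompactSupport ws
  have hnorm : ∀ j k, ‖ee h j k‖ = 1 := by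
    intro j k
    have := ee_inner h hac j k k
    rw [if_pos rfl] at this
    have h2 : ‖ee h j k‖ ^ 2 = 1 := by
      rw [← inner_self_eq_norm_sq (𝕜 := ℂ), this]; simp
    nlinarith [norm_nonneg (ee h j k)]
  have hb : ∀ j k, ‖⟪u, ee h j k⟫_ℂ‖ ≤ Real.sqrt (2 ^ j) * (M * ∫ x, ‖w x‖) := by
    intro j k
    rw [hu, ee, inner_toL2, Complex.norm_real, ← integral_const_mul, ← integral_const_mul]
    apply norm_integral_le_of_norm_le ((hw.norm.const_mul _).const_mul _)
    refine Eventually.of_forall fun x => ?_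
    rw [psi, norm_mul, norm_mul, Real.norm_of_nonneg (Real.sqrt_nonneg _)]
    have := mul_le_mul_of_nonneg_left (hM (2 ^ j * x - k))
      (mul_nonneg (norm_nonneg (w x)) (Real.sqrt_nonneg (2 ^ j)))
    rw [← Real.norm_eq_abs] at this
    linarith
  have key : ∀ j : ℤ, (2 : ℝ) ^ j * R ≤ 1 →
      ‖⟪u, f⟫_ℂ‖ ≤ Real.sqrt (2 ^ j) * (6 * (M * ∫ x, ‖w x‖) * ‖f‖) := by
    intro j hj
    let L : Lp ℂ 2 (volume : Measure ℝ) →L[ℂ] ℂ := innerSL ℂ u -
      ∑ k ∈ Finset.Icc (-4 : ℤ) 1, ⟪u, ee h j k⟫_ℂ • innerSL ℂ (ee h j k)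
    have hL : ∀ g, L g = ⟪u, g⟫_ℂ -
        ∑ k ∈ Finset.Icc (-4 : ℤ) 1, ⟪u, ee h j k⟫_ℂ * ⟪ee h j k, g⟫_ℂ := by
      intro g
      simp [L]
    have hker : V (fun x => (φ x : ℂ)) j ≤ L.ker := by
      rw [V_eq h]
      apply Submodule.topologicalClosure_minimal _ _ L.isClosed_ker
      rw [Submodule.span_le]
      rintro _ ⟨l, rfl⟩
      show L (ee h j l) = 0
      rw [hL]
      simp only [ee_inner h hac, mul_ite, mul_one, mul_zero, Finset.sum_ite_eq']
      split_ifs with hl
      · simp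
      · rw [sub_zero, hu, ee, inner_toL2]
        have : (fun x => w x * psi φ j l x) = fun _ => 0 := by
          funext x
          by_cases hx : (R : ℝ) ≤ |x|
          · rw [hR x hx, zero_mul]
          · have hp : (0 : ℝ) < 2 ^ j := by positivity
            have h1 : |2 ^ j * x| ≤ 1 := by
              rw [abs_mul, abs_of_pos hp]
              nlinarith
            rw [abs_le] at h1
            rw [Finset.mem_Icc, not_and_or] at hl
            rcases hl with hl | hl
            · have : (l : ℝ) ≤ -4 := by exact_mod_cast (by omega : l ≤ -4)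
              rw [psi, h.right _ (by linarith), mul_zero, mul_zero]
            · have : (1 : ℝ) ≤ l := by exact_mod_cast (by omega : 1 ≤ l)
              rw [psi, h.left _ (by linarith), mul_zero, mul_zero]
        rw [this]; simp
    have h0 : L f = 0 := hker (hf j)
    rw [hL, sub_eq_zero] at h0
    rw [h0]
    refine (norm_sum_le _ _).trans ((Finset.sum_le_card_nsmul _ _
      (Real.sqrt (2 ^ j) * (M * ∫ x, ‖w x‖) * ‖f‖) fun k _ => ?_).trans ?_)
    · rw [norm_mul]
      apply mul_le_mul (hb j k) _ (norm_nonneg _) ((norm_nonneg _).trans (hb j k))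
      simpa [hnorm] using norm_inner_le_norm (𝕜 := ℂ) (ee h j k) f
    · have : (Finset.Icc (-4 : ℤ) 1).card = 6 := by decide
      rw [this, nsmul_eq_mul]
      push_cast
      linarith
  have t0 : Tendsto (fun n : ℕ => (2 : ℝ) ^ (-(n : ℤ))) atTop (𝓝 0) := by
    simpa using tendsto_pow_atTop_nhds_zero_of_lt_one (r := (2 : ℝ)⁻¹) (by norm_num) (by norm_num)
  have t1 : Tendsto (fun n : ℕ => Real.sqrt ((2 : ℝ) ^ (-(n : ℤ))) *
      (6 * (M * ∫ x, ‖w x‖) * ‖f‖)) atTop (𝓝 0) := by
    simpa using t0.sqrt.mul_const (6 * (M * ∫ x, ‖w x‖) * ‖f‖)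
  have t2 : ∀ᶠ n : ℕ in atTop, (2 : ℝ) ^ (-(n : ℤ)) * R ≤ 1 := by
    have := t0.mul_const (R : ℝ)
    rw [zero_mul] at this
    exact this.eventually (ge_mem_nhds one_pos)
  exact norm_le_zero_iff.1 (ge_of_tendsto t1 (t2.mono fun n hn => key _ hn))

theorem result : ∃ φ : ℝ → ℂ, Continuous φ ∧ HasCompactSupport φ ∧ IsOrthScaling φ ∧
    ∃ (t₀ : ℝ) (P : ℤ), ∀ k : ℤ, φ (t₀ + k) = if k = P then 1 else 0 := by
  obtain ⟨a, b, φ, h, hf, hac, hcard⟩ := exists_phi
  have hc : Continuous fun x => (φ x : ℂ) := Complex.continuous_ofReal.comp h.cont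
  have hs : HasCompactSupport fun x => (φ x : ℂ) :=
    h.compact.comp_left (g := fun r : ℝ => (r : ℂ)) (by simp)
  refine ⟨fun x => (φ x : ℂ), hc, hs, ⟨hc.memLp_of_hasCompactSupport hs, fun k l => ?_, ?_,
    nested h hf, ?_, ?_⟩, 2 / 3, 0, fun k => ?_⟩
  · simp only [Complex.conj_ofReal, ← Complex.ofReal_mul]
    rw [integral_complex_ofReal, ac_shift, ← Int.cast_sub, hac]
    by_cases hkl : k = l
    · simp [hkl]
    · rw [if_neg hkl, if_neg (by omega)]; simp
  · refine ⟨fun k => if k = 0 then a else if k = 1 then 1 - b else if k = 2 then 1 - a else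
      if k = 3 then b else 0, fun t => ?_⟩
    have := hasSum_sum_of_ne_finset_zero (L := SummationFilter.unconditional ℤ)
      (s := ({0, 1, 2, 3} : Finset ℤ))
      (f := fun k : ℤ => (if k = 0 then a else if k = 1 then 1 - b else if k = 2 then 1 - a else
        if k = 3 then b else 0 : ℂ) * (φ (t - k) : ℂ)) (by
        intro k hk
        simp only [Finset.mem_insert, Finset.mem_singleton, not_or] at hk
        simp [hk])
    convert this using 1
    show ((φ (t / 2) : ℝ) : ℂ) = _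
    rw [← hf (t / 2), T, show 2 * (t / 2) = t by ring]
    simp
    ring
  · have hmono : Monotone (V fun x => (φ x : ℂ)) := monotone_int_of_le_succ (nested h hf)
    rw [← Submodule.coe_iSup_of_directed _ hmono.directed_le,
      Submodule.dense_iff_topologicalClosure_eq_top, Submodule.topologicalClosure_eq_top_iff,
      Submodule.eq_bot_iff]
    intro g hg
    exact perp_zero h g fun j k =>
      hg _ (Submodule.mem_iSup_of_mem j (ee_mem h j k))
  · rw [Submodule.eq_bot_iff]
    intro f hf'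
    exact inter_zero h hac f ((Submodule.mem_iInf _).1 hf')
  · show ((φ (2 / 3 + k) : ℝ) : ℂ) = _
    rw [hcard]
    split_ifs <;> simp

end Pool.Agent.Results.MP_5e7104_an.Cardinal
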